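import Pool.Agent.H82.KT.TC

/-!
MP_ee74d2_an, theorem KT: row PSM (sums over patterns).
-/

set_option autoImplicit false

namespace Pool.Agent.H82.KT

theorem psm_elem {N K zs zx za zb za' zb' : ℝ} (hK : 0 ≤ K) (h1 : 0 ≤ zs)
    (h2 : 0 ≤ zx) (h3 : 0 ≤ za) (h4 : 0 ≤ zb) (h5 : 0 ≤ za') (h6 : 0 ≤ zb')
    (h : N ^ 4 ≤ K ^ 4 * (zs ^ 2 * zx * za * zb * za' * zb')) :
    N ≤ K * zb' + K * ((1 + zs) * (1 + zx) * (1 + za) * (1 + zb) * (1 + za')) := by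
  have a1 : 1 ≤ 1 + zs := by linarith
  have a2 : 1 ≤ 1 + zx := by linarith
  have a3 : 1 ≤ 1 + za := by linarith
  have a4 : 1 ≤ 1 + zb := by linarith
  have a5 : 1 ≤ 1 + za' := by linarith
  have hw1 : 1 ≤ (1 + zs) * (1 + zx) * (1 + za) * (1 + zb) * (1 + za') :=
    one_le_mul_of_one_le_of_one_le (one_le_mul_of_one_le_of_one_le
      (one_le_mul_of_one_le_of_one_le (one_le_mul_of_one_le_of_one_le a1 a2) a3) a4) a5
  have hw2 : zs ^ 2 * zx * za * zb * za' ≤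
      ((1 + zs) * (1 + zx) * (1 + za) * (1 + zb) * (1 + za')) ^ 2 := by
    have e : ((1 + zs) * (1 + zx) * (1 + za) * (1 + zb) * (1 + za')) ^ 2 =
        (1 + zs) ^ 2 * (1 + zx) ^ 2 * (1 + za) ^ 2 * (1 + zb) ^ 2 * (1 + za') ^ 2 := by
      rw [mul_pow, mul_pow, mul_pow, mul_pow]
    have b0 : ∀ y : ℝ, 0 ≤ y → y ≤ (1 + y) ^ 2 := fun y hy => by
      nlinarith only [hy, sq_nonneg y]
    have b1 : zs ^ 2 ≤ (1 + zs) ^ 2 := by
      refine pow_le_pow_left₀ h1 (by linarith only) 2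
    have b2 := b0 zx h2
    have b3 := b0 za h3
    have b4 := b0 zb h4
    have b5 := b0 za' h5
    rw [e]
    gcongr
  obtain ⟨w, hw⟩ : ∃ w : ℝ, w = (1 + zs) * (1 + zx) * (1 + za) * (1 + zb) * (1 + za') := ⟨_, rfl⟩
  obtain ⟨W, hW⟩ : ∃ W : ℝ, W = zs ^ 2 * zx * za * zb * za' := ⟨_, rfl⟩
  have hW0 : 0 ≤ W := by rw [hW]; positivity
  rw [← hw] at hw1 hw2 ⊢
  rw [← hW] at hw2
  rw [← hW] at h
  by_contra hlt
  rw [not_le] at hlt
  have c1 : 0 ≤ K * zb' := by positivity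
  have c2 : 0 ≤ K * w := by positivity
  have c3 : 0 < N := by linarith
  have c4 : N ^ 4 ≤ K ^ 3 * N * W := by
    have e1 : K ^ 4 * (W * zb') = K ^ 3 * (K * zb') * W := by ring
    rw [e1] at h
    refine h.trans ?_
    have : K * zb' ≤ N := by linarith
    gcongr
  have c5 : N ^ 3 ≤ K ^ 3 * W := by
    have e1 : N * N ^ 3 ≤ N * (K ^ 3 * W) := by
      have e2 : N * N ^ 3 = N ^ 4 := by ring
      have e3 : N * (K ^ 3 * W) = K ^ 3 * N * W := by ring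
      rw [e2, e3]
      exact c4
    exact le_of_mul_le_mul_left e1 c3
  have c6 : K ^ 3 * W ≤ (K * w) ^ 3 := by
    have e1 : W ≤ w ^ 3 := by
      refine hw2.trans ?_
      exact pow_le_pow_right₀ hw1 (by norm_num)
    rw [mul_pow]
    gcongr
  have c7 : (K * w) ^ 3 < N ^ 3 := by
    refine pow_lt_pow_left₀ (by linarith) c2 (by norm_num)
  linarith

theorem psm_card {I : Finset ℤ} {J : ℝ} (hJ : 1 ≤ J)
    (hI : ∀ u ∈ I, ∀ v ∈ I, |((u : ℝ) - v)| ≤ J) : (I.card : ℝ) ≤ 2 * J := by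
  rcases I.eq_empty_or_nonempty with h | h
  · rw [h, Finset.card_empty, Nat.cast_zero]
    linarith
  · have h1 : I ⊆ Finset.Icc (I.min' h) (I.max' h) := by
      intro u hu
      exact Finset.mem_Icc.2 ⟨I.min'_le u hu, I.le_max' u hu⟩
    have h2 := Finset.card_le_card h1
    rw [Int.card_Icc] at h2
    have h3 : I.min' h ≤ I.max' h := I.min'_le _ (I.max'_mem h)
    have h4 : ((I.max' h + 1 - I.min' h).toNat : ℤ) = I.max' h + 1 - I.min' h :=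
      Int.toNat_of_nonneg (by linarith)
    have h5 : (I.card : ℝ) ≤ ((I.max' h + 1 - I.min' h).toNat : ℝ) := by exact_mod_cast h2
    have h6 : ((I.max' h + 1 - I.min' h).toNat : ℝ) = (I.max' h : ℝ) + 1 - I.min' h := by
      exact_mod_cast h4
    have h7 := hI _ (I.max'_mem h) _ (I.min'_mem h)
    have h8 := le_abs_self ((I.max' h : ℝ) - I.min' h)
    linarith

open scoped Classical in
theorem psm_ite {I : Finset ℤ} {p : ℤ → Prop} {c B : ℝ} (hc : 0 ≤ c)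
    (h : ((I.filter p).card : ℝ) ≤ B) : ∑ b ∈ I, (if p b then c else 0) ≤ B * c := by
  rw [← Finset.sum_filter, Finset.sum_const, nsmul_eq_mul]
  exact mul_le_mul_of_nonneg_right h hc

open scoped Classical in
theorem pf_PSM (hFIB : T_FIB) : T_PSM := by
  intro I z N J ω ρ K hJ hω hω1 hK hI hz hzJ hN
  have hJ0 : 0 < J := by linarith
  have hcard := psm_card hJ hI
  have hS : ∑ u ∈ I, (1 + z u) ≤ 3 * J := by
    rw [Finset.sum_add_distrib, Finset.sum_const, nsmul_eq_mul, mul_one]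
    linarith
  have hS0 : 0 ≤ ∑ u ∈ I, (1 + z u) :=
    Finset.sum_nonneg fun u hu => by have := hz u hu; linarith
  have hz0 : 0 ≤ ∑ u ∈ I, z u := Finset.sum_nonneg hz
  -- the fibres
  have hF1 : ∀ s ∈ I, ∀ x a b : ℤ, ∀ a' ∈ I,
      ((I.filter fun b' => Pat ω ρ J s x a b a' b').card : ℝ) ≤ 3 / ω := by
    intro s hs x a b a' ha'
    refine le_trans ?_ (hFIB I J ω (Ph s x a b) s x a' hJ0 hω hω1 hI hs ha')
    have : (I.filter fun b' => Pat ω ρ J s x a b a' b') ⊆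
        I.filter fun b' => Adm ω J s x a' b' ∧ |Ph s x a b - Ph s x a' b'| ≤ 1 / J ^ 2 := by
      intro b' hb'
      obtain ⟨e1, e2⟩ := Finset.mem_filter.1 hb'
      exact Finset.mem_filter.2 ⟨e1, e2.2.1, e2.2.2.1⟩
    exact_mod_cast Finset.card_le_card this
  have hF2 : ∀ s ∈ I, ∀ x : ℤ, ∀ a ∈ I, ∀ a' b' : ℤ,
      ((I.filter fun b => Pat ω ρ J s x a b a' b').card : ℝ) ≤ 3 / ω := by
    intro s hs x a ha a' b'
    refine le_trans ?_ (hFIB I J ω (Ph s x a' b') s x a hJ0 hω hω1 hI hs ha)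
    have : (I.filter fun b => Pat ω ρ J s x a b a' b') ⊆
        I.filter fun b => Adm ω J s x a b ∧ |Ph s x a' b' - Ph s x a b| ≤ 1 / J ^ 2 := by
      intro b hb
      obtain ⟨e1, e2⟩ := Finset.mem_filter.1 hb
      refine Finset.mem_filter.2 ⟨e1, e2.1, ?_⟩
      rw [abs_sub_comm]
      exact e2.2.2.1
    exact_mod_cast Finset.card_le_card this
  have hω3 : 0 ≤ 3 / ω := by positivity
  -- the first sum
  have hA : ∑ s ∈ I, ∑ x ∈ I, ∑ a ∈ I, ∑ b ∈ I, ∑ a' ∈ I, ∑ b' ∈ I,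
      (if Pat ω ρ J s x a b a' b' then K * z b' else 0) ≤ 48 * K * J ^ 5 / ω := by
    have e1 : ∀ s ∈ I, ∀ x ∈ I, ∀ a ∈ I, ∑ b ∈ I, ∑ a' ∈ I, ∑ b' ∈ I,
        (if Pat ω ρ J s x a b a' b' then K * z b' else 0) ≤
        (I.card : ℝ) * (3 / ω * (K * ∑ u ∈ I, z u)) := by
      intro s hs x hx a ha
      rw [Finset.sum_comm]
      rw [← nsmul_eq_mul]
      refine Finset.sum_le_card_nsmul _ _ _ fun a' ha' => ?_
      rw [Finset.sum_comm, Finset.mul_sum, Finset.mul_sum]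
      refine Finset.sum_le_sum fun b' hb' => ?_
      exact psm_ite (mul_nonneg hK (hz b' hb')) (hF2 s hs x a ha a' b')
    have e2 : ∀ s ∈ I, ∀ x ∈ I, ∑ a ∈ I, ∑ b ∈ I, ∑ a' ∈ I, ∑ b' ∈ I,
        (if Pat ω ρ J s x a b a' b' then K * z b' else 0) ≤
        (I.card : ℝ) * ((I.card : ℝ) * (3 / ω * (K * ∑ u ∈ I, z u))) := by
      intro s hs x hx
      rw [← nsmul_eq_mul]
      exact Finset.sum_le_card_nsmul _ _ _ fun a ha => e1 s hs x hx a ha
    have e3 : ∀ s ∈ I, ∑ x ∈ I, ∑ a ∈ I, ∑ b ∈ I, ∑ a' ∈ I, ∑ b' ∈ I,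
        (if Pat ω ρ J s x a b a' b' then K * z b' else 0) ≤
        (I.card : ℝ) * ((I.card : ℝ) * ((I.card : ℝ) * (3 / ω * (K * ∑ u ∈ I, z u)))) := by
      intro s hs
      rw [← nsmul_eq_mul]
      exact Finset.sum_le_card_nsmul _ _ _ fun x hx => e2 s hs x hx
    have e4 : ∑ s ∈ I, ∑ x ∈ I, ∑ a ∈ I, ∑ b ∈ I, ∑ a' ∈ I, ∑ b' ∈ I,
        (if Pat ω ρ J s x a b a' b' then K * z b' else 0) ≤
        (I.card : ℝ) * ((I.card : ℝ) * ((I.card : ℝ) * ((I.card : ℝ) *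
          (3 / ω * (K * ∑ u ∈ I, z u))))) := by
      rw [← nsmul_eq_mul]
      exact Finset.sum_le_card_nsmul _ _ _ fun s hs => e3 s hs
    have hc0 : (0 : ℝ) ≤ I.card := Nat.cast_nonneg _
    calc _ ≤ _ := e4
      _ ≤ 2 * J * (2 * J * (2 * J * (2 * J * (3 / ω * (K * J))))) := by gcongr
      _ = 48 * K * J ^ 5 / ω := by ring
  -- the second sum
  have hB : ∑ s ∈ I, ∑ x ∈ I, ∑ a ∈ I, ∑ b ∈ I, ∑ a' ∈ I, ∑ b' ∈ I,
      (if Pat ω ρ J s x a b a' b' then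
        K * ((1 + z s) * (1 + z x) * (1 + z a) * (1 + z b) * (1 + z a')) else 0) ≤
      729 * K * J ^ 5 / ω := by
    have e1 : ∑ s ∈ I, ∑ x ∈ I, ∑ a ∈ I, ∑ b ∈ I, ∑ a' ∈ I, ∑ b' ∈ I,
        (if Pat ω ρ J s x a b a' b' then
          K * ((1 + z s) * (1 + z x) * (1 + z a) * (1 + z b) * (1 + z a')) else 0) ≤
        ∑ s ∈ I, ∑ x ∈ I, ∑ a ∈ I, ∑ b ∈ I, ∑ a' ∈ I,
          3 / ω * (K * ((1 + z s) * (1 + z x) * (1 + z a) * (1 + z b) * (1 + z a'))) := by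
      refine Finset.sum_le_sum fun s hs => Finset.sum_le_sum fun x hx =>
        Finset.sum_le_sum fun a ha => Finset.sum_le_sum fun b hb =>
        Finset.sum_le_sum fun a' ha' => ?_
      have g1 := hz s hs
      have g2 := hz x hx
      have g3 := hz a ha
      have g4 := hz b hb
      have g5 := hz a' ha'
      exact psm_ite (by positivity) (hF1 s hs x a b a' ha')
    refine e1.trans ?_
    have e2 : ∑ s ∈ I, ∑ x ∈ I, ∑ a ∈ I, ∑ b ∈ I, ∑ a' ∈ I,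
          3 / ω * (K * ((1 + z s) * (1 + z x) * (1 + z a) * (1 + z b) * (1 + z a'))) =
        3 / ω * (K * ((∑ u ∈ I, (1 + z u)) * (∑ u ∈ I, (1 + z u)) * (∑ u ∈ I, (1 + z u)) *
          (∑ u ∈ I, (1 + z u)) * (∑ u ∈ I, (1 + z u)))) := by
      simp only [← Finset.mul_sum, ← Finset.sum_mul]
    rw [e2]
    calc 3 / ω * (K * ((∑ u ∈ I, (1 + z u)) * (∑ u ∈ I, (1 + z u)) * (∑ u ∈ I, (1 + z u)) *
          (∑ u ∈ I, (1 + z u)) * (∑ u ∈ I, (1 + z u))))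
        ≤ 3 / ω * (K * (3 * J * (3 * J) * (3 * J) * (3 * J) * (3 * J))) := by gcongr
      _ = 729 * K * J ^ 5 / ω := by ring
  have hC : ∑ s ∈ I, ∑ x ∈ I, ∑ a ∈ I, ∑ b ∈ I, ∑ a' ∈ I, ∑ b' ∈ I,
      (if Pat ω ρ J s x a b a' b' then N s x a b a' b' else 0) ≤
      ∑ s ∈ I, ∑ x ∈ I, ∑ a ∈ I, ∑ b ∈ I, ∑ a' ∈ I, ∑ b' ∈ I,
      ((if Pat ω ρ J s x a b a' b' then K * z b' else 0) +
      (if Pat ω ρ J s x a b a' b' then
        K * ((1 + z s) * (1 + z x) * (1 + z a) * (1 + z b) * (1 + z a')) else 0)) := by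
    refine Finset.sum_le_sum fun s hs => Finset.sum_le_sum fun x hx =>
      Finset.sum_le_sum fun a ha => Finset.sum_le_sum fun b hb =>
      Finset.sum_le_sum fun a' ha' => Finset.sum_le_sum fun b' hb' => ?_
    by_cases hP : Pat ω ρ J s x a b a' b'
    · rw [if_pos hP, if_pos hP, if_pos hP]
      obtain ⟨-, g2⟩ := hN s hs x hx a ha b hb a' ha' b' hb' hP
      exact psm_elem hK (hz s hs) (hz x hx) (hz a ha) (hz b hb) (hz a' ha') (hz b' hb') g2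
    · rw [if_neg hP, if_neg hP, if_neg hP, add_zero]
  refine hC.trans ?_
  simp only [Finset.sum_add_distrib]
  refine (add_le_add hA hB).trans (le_of_eq ?_)
  ring

end Pool.Agent.H82.KT
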