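import Pool.Agent.H82.KT.TR
import Pool.Agent.H62.HD.TEN1a

/-!
MP_ee74d2_an, theorem KT: row TENK (two ends).
-/

set_option autoImplicit false

namespace Pool.Agent.H82.KT

open MeasureTheory Set
open Pool.Agent.H83.G Pool.Agent.H82.HD Pool.Agent.H62.HD
open Pool.Agent.H22.G (co)
open scoped ENNReal NNReal RealInnerProductSpace

theorem tenk_mem_SB {m : ℕ} {S : Finset (Pk m)} {QQ : Finset (Zi m)} {R r δ : ℝ} {l k : ℕ}
    {B : Zi m} {W : Pk m} :
    W ∈ SB QQ R r δ l k S B ↔ W ∈ S ∧ Sh QQ R r δ l k (tb R W) B := by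
  classical
  unfold SB
  rw [Finset.mem_filter]

theorem pf_TENK (hTDA : T_TDA) (hCBK : T_CBK) (hPTC : T_PTC) (hTUB : T_TUB) (hKNU : T_KNU)
    (hBPG : T_BPG) (hAMU : T_AMU) : T_TENK := by
  classical
  intro m hm
  have hKNU := hKNU m hm
  have hm4 : 4 ≤ m := by omega
  have hmR5 : (5 : ℝ) ≤ m := by exact_mod_cast hm
  have hmR : (4 : ℝ) ≤ m := by linarith
  have hlo : lo m = 100 * ((m : ℝ) + 2) := rfl
  have hlb : lb m = 100000 * ((m : ℝ) + 2) ^ 2 := rfl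
  have hlo0 : 600 ≤ lo m := by rw [hlo]; linarith
  have hy6 : (6 : ℝ) ≤ (m : ℝ) + 2 := by linarith
  have hlb0 : 1 ≤ lb m := by rw [hlb]; nlinarith
  have hlb00 : 0 < lb m := by linarith
  refine ⟨1 / (5000 * lb m), by positivity, fun L hL => ?_⟩
  intro β Ψ ψ δ ε₀ ε₂ B hβ hΨ hδ hδγ hδ1 hε₀ hε₀γ hε₀1 hε₂ hB
  obtain ⟨N₀A, hTDA⟩ := hTDA m L β Ψ ψ δ ε₀ B hm4 hβ hΨ hδ hδ1 hε₀ hε₀1 hB
  have hB' : 1 ≤ B + m + 10 := by linarith
  obtain ⟨N₀P, hPTC⟩ := hPTC m L β δ ε₂ (B + m + 10) hβ hδ hδ1 hε₂ hB'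
  obtain ⟨C_B, hC_B, hCBK⟩ := hCBK m (by omega)
  obtain ⟨hbpadd, hbpsmul, htm, hbpw, hBPGD⟩ := hBPG m
  obtain ⟨C_D, hC_D, hbpn, -⟩ := hBPGD 3 (by norm_num)
  refine ⟨max N₀A (max N₀P (m + 3)), fun N hN => ?_⟩
  obtain ⟨C_A, hC_A, hTDA⟩ := hTDA N ((le_max_left _ _).trans hN)
  obtain ⟨C_P, hC_P, hPTC⟩ := hPTC N (((le_max_left _ _).trans (le_max_right _ _)).trans hN)
  obtain ⟨C_M, hC_M, hAMU⟩ := hAMU m L N β δ hβ hδ.le
    (((le_max_right _ _).trans (le_max_right _ _)).trans hN)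
  set C' : ℝ := 4 + C_A + C_P + C_M + C_B + B with hC'
  have hC'4 : 4 ≤ C' := by rw [hC']; linarith
  have hDm : 0 < C_D * ((m : ℝ) + 3) := by positivity
  refine ⟨4 * C' + 16 * ((m : ℝ) + 2) + C_D * ((m : ℝ) + 3), by linarith, ?_⟩
  set Cf : ℝ := 4 * C' + 16 * ((m : ℝ) + 2) + C_D * ((m : ℝ) + 3) with hCf
  intro κ R T A H En G z₀ S a b l k QQ ν X hκ0 hκ1 hR hCR hRT hA hH hAH hEn hCls hBC hSep hX
    hS hScard ha hb hsat hEnS hEnB hν hνQ hν2 hXQ hQQ hCk hXH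
  have hR0 : 0 < R := by linarith
  have hsR : 0 < Real.sqrt R := Real.sqrt_pos.2 hR0
  set x : ℝ := 28 / (11 * m - 17) with hx
  have hm0 : (0 : ℝ) < m := by linarith
  have hx0 : 0 < x := div_pos (by norm_num) (by linarith)
  have hmx : (m : ℝ) * x < 4 := by
    rw [hx, ← mul_div_assoc, div_lt_iff₀ (by linarith)]
    linarith
  -- consequences of the size of `R`
  have hC'R : C' ≤ R ^ δ := by linarith
  have h16 : 16 * ((m : ℝ) + 2) ≤ R ^ δ := by linarith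
  have hCDR : C_D * ((m : ℝ) + 3) ≤ R ^ δ := by linarith
  have hm3R : (m : ℝ) + 3 ≤ R ^ δ := by
    refine le_trans ?_ hCDR
    exact le_mul_of_one_le_left (by positivity) hC_D
  have hCAC : C_A ≤ C' := by rw [hC']; linarith
  have hCPC : C_P ≤ C' := by rw [hC']; linarith
  have hCMC : C_M ≤ C' := by rw [hC']; linarith
  have hCBC : C_B ≤ C' := by rw [hC']; linarith
  have hBC' : B ≤ C' := by rw [hC']; linarith
  have hCfC : C' ≤ Cf := by rw [hCf]; linarith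
  have hC4f : 4 * C' ≤ Cf := by rw [hCf]; linarith
  have hCf0 : 0 ≤ Cf := by linarith
  have hCB : 1 ≤ C_B := hC_B
  clear_value Cf C' x
  rcases X.eq_empty_or_nonempty with hXe | hXne
  · rw [hXe, Finset.card_empty, Nat.cast_zero, zero_mul]
    positivity
  -- time
  have hT0 : 0 < T := lt_of_lt_of_le (by positivity) hRT
  have hRT16 : 16 * ((m : ℝ) + 2) * R ≤ T := by
    refine le_trans ?_ hRT
    rw [Real.rpow_add hR0, Real.rpow_one, mul_comm]
    refine mul_le_mul_of_nonneg_left (h16.trans ?_) hR0.le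
    exact Real.rpow_le_rpow_of_exponent_le hR (by linarith)
  have h96 : 96 * R ≤ T := by
    refine le_trans ?_ hRT16
    exact mul_le_mul_of_nonneg_right (by linarith) hR0.le
  have htz : 3 / 4 * T ≤ tm z₀ ∧ tm z₀ ≤ 3 * T := by
    obtain ⟨z₁, hz₁⟩ := hXne
    obtain ⟨e1, e2, e3⟩ := hX z₁ hz₁
    have e4 := (htm z₁ z₀ 0).2.1
    have e5 := (htm (z₁ - z₀) 0 0).2.2.2
    rw [e4] at e5
    have e6 := abs_le.1 e5
    constructor <;> linarith [e6.1, e6.2]
  obtain ⟨htz1, htz2⟩ := htz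
  obtain ⟨S', hS'⟩ : ∃ S' : Finset (Pk m), S' = S.filter (fun W =>
    ∃ B, Sh QQ R (R ^ (1 - ε₀)) δ l k (tb R W) B) := ⟨_, rfl⟩
  have hS'S : S' ⊆ S := by rw [hS']; exact Finset.filter_subset _ _
  have hSB : ∀ B', SB QQ R (R ^ (1 - ε₀)) δ l k S B' = SB QQ R (R ^ (1 - ε₀)) δ l k S' B' := by
    intro B'
    ext W
    rw [tenk_mem_SB, tenk_mem_SB, hS', Finset.mem_filter]
    constructor
    · rintro ⟨a1, a2⟩
      exact ⟨⟨a1, B', a2⟩, a2⟩
    · rintro ⟨⟨a1, -⟩, a2⟩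
      exact ⟨a1, a2⟩
  have hfilt : ∀ W ∈ S', S'.filter (fun W' => tb R W' = tb R W) =
      S.filter (fun W' => tb R W' = tb R W) := by
    intro W hW
    rw [hS', Finset.mem_filter] at hW
    ext W'
    rw [Finset.mem_filter, Finset.mem_filter, hS', Finset.mem_filter]
    constructor
    · rintro ⟨⟨a1, -⟩, a2⟩
      exact ⟨a1, a2⟩
    · rintro ⟨a1, a2⟩
      exact ⟨⟨a1, by rw [a2]; exact hW.2⟩, a2⟩
  have hsat' : ∀ W ∈ S', b ≤ ((S'.filter (fun W' => tb R W' = tb R W)).card : ℝ) ∧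
      ((S'.filter (fun W' => tb R W' = tb R W)).card : ℝ) ≤ 2 * b := by
    intro W hW
    rw [hfilt W hW]
    exact hsat W (hS'S hW)
  have hXH' : ∀ z ∈ X, H ≤ ‖∑ W ∈ SB QQ R (R ^ (1 - ε₀)) δ l k S'
      (bl R (R ^ (1 - ε₀)) (cb (Real.sqrt R) z)), Fp β ψ R δ G W z‖ := by
    intro z hz
    rw [← hSB]
    exact hXH z hz
  obtain ⟨S₁, N', q₄, M, t, Λ_A, hS₁', hΛA, ht, hS₁p, hM, hq₄, hXN, hE1, hE2, hE3, hE4, hE5, hE6,
    hE7, hE8⟩ := hTDA κ R A H a b G z₀ S' l k QQ ν X hκ0 hκ1 hR (hCAC.trans hC'R) hA hH hAH hCls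
      hSep hXne (fun z hz => (hX z hz).1) (fun W hW => ⟨(hS W (hS'S hW)).1,
        (hS W (hS'S hW)).2.2.1, (hS W (hS'S hW)).2.2.2.1, (hS W (hS'S hW)).2.2.2.2⟩)
        ((Nat.cast_le.2 (Finset.card_le_card hS'S)).trans hScard) ha hb hsat' hν hνQ hν2 hXQ hQQ
        (hCAC.trans (hCfC.trans hCk)) hXH'
  have hS₁ : S₁ ⊆ S := hS₁'.trans hS'S
  have hShT : ∀ W ∈ S₁, ∃ B, Sh QQ R (R ^ (1 - ε₀)) δ l k (tb R W) B := by
    intro W hW
    have h1 := hS₁' hW
    rw [hS', Finset.mem_filter] at h1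
    exact h1.2
  set Λ : ℝ := C' * R ^ (10 * lo m * (δ + ε₀)) with hΛ
  have hRp : 1 ≤ R ^ (10 * lo m * (δ + ε₀)) := Real.one_le_rpow hR (by positivity)
  have hΛ4 : 4 ≤ Λ := by
    rw [hΛ]
    exact hC'4.trans (le_mul_of_one_le_right (by linarith only [hC'4]) hRp)
  have hΛ0 : 0 < Λ := by linarith only [hΛ4]
  have hΛle : Λ_A ≤ Λ := by
    rw [hΛA, hΛ]
    exact mul_le_mul_of_nonneg_right hCAC (by positivity)
  have hCle : ∀ (c p : ℝ), c ≤ C' → p ≤ 10 * lo m * (δ + ε₀) → c * R ^ p ≤ Λ := by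
    intro c p hc hp
    rw [hΛ]
    refine mul_le_mul hc (Real.rpow_le_rpow_of_exponent_le hR hp) (by positivity) (by linarith)
  have hN'0 : 0 < N' := by
    have e1 : (0 : ℝ) < X.card := by exact_mod_cast hXne.card_pos
    have e2 : 0 < R ^ δ * N' := lt_of_lt_of_le e1 hXN
    exact pos_of_mul_pos_right e2 (by positivity)
  have ht1 : 1 ≤ t := hM.trans hE8
  have ht0 : 0 < t := by linarith
  have hM0 : 0 < M := by linarith
  have hb0 : 0 < b := by linarith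
  have hS₁ne : S₁.Nonempty := by
    by_contra hno
    rw [Finset.not_nonempty_iff_eq_empty] at hno
    rw [hno, Finset.image_empty, Finset.card_empty, Nat.cast_zero] at ht
    linarith
  set n : ℝ := (2 : ℝ) ^ (l + k) with hn
  have hn0 : 0 < n := by positivity
  clear_value Λ
  have hfib : ∀ TT : Finset (Pk m), TT ⊆ S₁.image (tb R) →
      b * TT.card ≤ ((S₁.filter (fun W => tb R W ∈ TT)).card : ℝ) := fun TT hTT =>
    fibre (tb R) S' S₁ b (fun W hW => (hsat' W (hS₁' hW)).1) (fun W hW => (hS₁p W hW).2) TT hTT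
  -- the energy
  have hD : t * b * a ^ 2 * R ^ (((m : ℝ) + 2) / 2) ≤ En := by
    have e1 : t * b ≤ S₁.card := by
      have := hfib (S₁.image (tb R)) subset_rfl
      rw [← ht] at this
      have e2 : ((S₁.filter (fun W => tb R W ∈ S₁.image (tb R))).card : ℝ) ≤ S₁.card := by
        exact_mod_cast Finset.card_filter_le _ _
      linarith
    refine le_trans ?_ hEnS
    have e2 : (S₁.card : ℝ) * (a ^ 2 * R ^ (((m : ℝ) + 2) / 2)) ≤
        ∑ W ∈ S₁, al N β R δ G W ^ 2 * R ^ (((m : ℝ) + 2) / 2) := by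
      rw [← nsmul_eq_mul]
      refine Finset.card_nsmul_le_sum _ _ _ fun W hW => ?_
      have e3 := (hS W (hS₁ hW)).2.2.2.1
      gcongr
    have e3 : ∑ W ∈ S₁, al N β R δ G W ^ 2 * R ^ (((m : ℝ) + 2) / 2) ≤
        ∑ W ∈ S, al N β R δ G W ^ 2 * R ^ (((m : ℝ) + 2) / 2) :=
      Finset.sum_le_sum_of_subset_of_nonneg hS₁ fun W _ _ => by positivity
    refine le_trans ?_ (e2.trans e3)
    have e4 : t * b * a ^ 2 * R ^ (((m : ℝ) + 2) / 2) =
        t * b * (a ^ 2 * R ^ (((m : ℝ) + 2) / 2)) := by ring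
    rw [e4]
    exact mul_le_mul_of_nonneg_right e1 (by positivity)
  have haA : a ≤ Λ * A := by
    obtain ⟨W, hW⟩ := hS₁ne
    have e1 := (hS W (hS₁ hW)).2.2.2.1
    have e2 := (hAMU κ R A G W hκ0 (by linarith) hR hA hCls).1
    refine e1.trans (e2.trans (mul_le_mul_of_nonneg_right ?_ hA.le))
    have := hCle C_M 0 hCMC (by positivity)
    rwa [Real.rpow_zero, mul_one] at this
  have hE1' : N' * H ^ (2 * ((m : ℝ) + 2) / m) ≤ Λ * M ^ (2 / (m : ℝ)) *
      a ^ (2 * ((m : ℝ) + 2) / m) * (t * b) * R ^ (((m : ℝ) + 2) / 2) := by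
    refine hE1.trans ?_
    gcongr
  have hE2' : N' * H ^ 2 ≤ Λ * q₄ * M * b * a ^ 2 * R ^ (((m : ℝ) + 1) / 2) := by
    refine hE2.trans ?_
    gcongr
  have hE4' : q₄ * M ≤ Λ * Real.sqrt R * t := by
    refine hE4.trans ?_
    gcongr
  have hE5' : (QQ.card : ℝ) ≤ Λ * q₄ := by
    refine hE5.trans ?_
    gcongr
  have hE6' : M * n ≤ Λ * QQ.card := by
    refine hE6.trans ?_
    gcongr
  have hE7' : n ≤ Λ * Real.sqrt R := by
    refine hE7.trans ?_
    gcongr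
  by_cases hc : (n / Real.sqrt R) ^ (1 - m * x / 4) * (M * a ^ 2 / A ^ 2) ^ (x / 2) ≤
      R ^ (m * x / 2 - 1)
  · have h1 := case1 hm0 hx0 hmx hR hn0 hM ha hA hΛ0 ht0.le hb0.le hN'0.le
      hH hE1' hE2' hE3 hD hc
    have e0 : 0 ≤ A ^ x * R ^ ((m : ℝ) * x / 2 - 1) * En := by positivity
    have h2 := fin1 (Rq := R ^ ((lb m - 1) * (δ + ε₀))) hXN (by positivity) h1 (by positivity) e0
      hΛ (by linarith only [hC'4]) hC4f (by
        rw [← Real.rpow_add hR0]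
        refine Real.rpow_le_rpow_of_exponent_le hR ?_
        rw [hlo, hlb]
        exact (exps hy6 hδ hε₀).2.2.2) (by positivity)
    refine h2.trans (le_of_eq ?_)
    simp only [mul_assoc]
  · exfalso
    rw [not_le] at hc
    obtain ⟨Λ₂, hΛ₂⟩ : ∃ Λ₂ : ℝ, Λ₂ = C' * R ^ (lb m * (δ + ε₀)) := ⟨_, rfl⟩
    have hee : 10 * lo m * (δ + ε₀) ≤ lb m * (δ + ε₀) := by
      refine mul_le_mul_of_nonneg_right ?_ (by linarith only [hδ, hε₀])
      rw [hlo, hlb]
      nlinarith only [hy6]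
    have hΛΛ : Λ ≤ Λ₂ := by
      rw [hΛ, hΛ₂]
      exact mul_le_mul_of_nonneg_left (Real.rpow_le_rpow_of_exponent_le hR hee)
        (by linarith only [hC'4])
    have hΛ₂R : Λ₂ ≤ R ^ (1 / 1000 : ℝ) := by
      rw [hΛ₂]
      have e1 : C' * R ^ (lb m * (δ + ε₀)) ≤ R ^ δ * R ^ (lb m * (δ + ε₀)) :=
        mul_le_mul_of_nonneg_right hC'R (by positivity)
      refine e1.trans ?_
      rw [← Real.rpow_add hR0]
      refine Real.rpow_le_rpow_of_exponent_le hR ?_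
      have d1 : δ * (5000 * lb m) ≤ 1 := by
        rwa [le_div_iff₀ (by positivity)] at hδγ
      have d2 : ε₀ * (5000 * lb m) ≤ 1 := by
        rwa [le_div_iff₀ (by positivity)] at hε₀γ
      have d3 : δ ≤ δ * lb m := le_mul_of_one_le_right hδ.le hlb0
      have d4 : δ + lb m * (δ + ε₀) = δ + δ * lb m + ε₀ * lb m := by ring
      rw [d4]
      linarith only [d1, d2, d3]
    have hΛ₂4 : 4 ≤ Λ₂ := hΛ4.trans hΛΛ
    have hΛ₂0 : 0 < Λ₂ := by linarith only [hΛ₂4]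
    have hQ0 : (0 : ℝ) < QQ.card := by
      obtain ⟨z₁, hz₁⟩ := hXne
      have : QQ.Nonempty := ⟨_, hXQ z₁ hz₁⟩
      exact_mod_cast this.card_pos
    have hEn2 : t * b * a ^ 2 * R ^ (((m : ℝ) + 2) / 2) ≤ Λ₂ * (A ^ 2 * R ^ ((m : ℝ) + 2)) := by
      refine hD.trans (hEnB.trans (mul_le_mul_of_nonneg_right ?_ (by positivity)))
      exact (hCle B _ hBC' (exps hy6 hδ hε₀).1).trans hΛΛ
    obtain ⟨f, hf⟩ : ∃ f : ℝ, f = Λ₂ * (A ^ 2 * R ^ 2) / (b * a ^ 2) := ⟨_, rfl⟩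
    have hba : 0 < b * a ^ 2 := by positivity
    have hf0 : 0 < f := by rw [hf]; positivity
    have hfb : f * (b * a ^ 2) ≤ Λ₂ * (A ^ 2 * R ^ 2) := by
      rw [hf, div_mul_cancel₀ _ hba.ne']
    have hE5'' : (QQ.card : ℝ) ≤ Λ₂ * q₄ :=
      hE5'.trans (mul_le_mul_of_nonneg_right hΛΛ hq₄.le)
    have hE6'' : M * n ≤ Λ₂ * QQ.card :=
      hE6'.trans (mul_le_mul_of_nonneg_right hΛΛ hQ0.le)
    have hE7'' : n ≤ Λ₂ * Real.sqrt R :=
      hE7'.trans (mul_le_mul_of_nonneg_right hΛΛ hsR.le)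
    have haA'' : a ≤ Λ₂ * A := haA.trans (mul_le_mul_of_nonneg_right hΛΛ hA.le)
    obtain ⟨hK1, hK2⟩ := hKNU R Λ₂ t M b n QQ.card q₄ a A f x hR hΛ₂4 hΛ₂R ht0 hM hb hn0 hQ0 hq₄
      ha hA hf0 rfl hE3 hE5'' hE6'' hEn2 haA'' hE7'' hfb hc
    have hTsR : R ^ (1 / 2 + δ) * R ^ δ ≤ T * sR R := by
      have e1 : R ^ (1 + ε₂) * sR R ≤ T * sR R :=
        mul_le_mul_of_nonneg_right hRT (by unfold sR; positivity)
      refine le_trans ?_ e1
      have e2 : sR R = R ^ (-(1 / 2) : ℝ) := by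
        unfold sR
        rw [Real.sqrt_eq_rpow, Real.rpow_neg hR0.le]
      rw [e2, ← Real.rpow_add hR0, ← Real.rpow_add hR0]
      exact Real.rpow_le_rpow_of_exponent_le hR (by linarith)
    have hhalf : ((m : ℝ) + 3) * R ^ (1 / 2 + δ) ≤ R := by
      have e1 : R ^ (1 / 2 + δ) * R ^ δ ≤ R := by
        rw [← Real.rpow_add hR0]
        calc R ^ (1 / 2 + δ + δ) ≤ R ^ (1 : ℝ) :=
              Real.rpow_le_rpow_of_exponent_le hR (by linarith)
          _ = R := Real.rpow_one R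
      refine le_trans ?_ e1
      rw [mul_comm]
      exact mul_le_mul_of_nonneg_left hm3R (by positivity)
    have hmain := hCBK R T δ ε₀ f z₀ (S₁.image (tb R)) QQ l k hR hδ.le hε₀.le
      (by linarith only [hδ1, hε₀1]) hRT16 htz1 htz2 (hCBC.trans (hCfC.trans hCk)) (by
        intro Tu hTu
        obtain ⟨W, hW, rfl⟩ := Finset.mem_image.1 hTu
        exact ⟨(hS W (hS₁ hW)).2.2.1, hShT W hW⟩)
      hQQ (by
        refine le_trans ?_ hK1
        rw [hΛ₂]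
        exact mul_le_mul_of_nonneg_right hCBC (by positivity)) (by
      intro p TT₂ hTT₂ hTT₂p
      have hS₂ := hfib TT₂ hTT₂
      set S₂ : Finset (Pk m) := S₁.filter (fun W => tb R W ∈ TT₂) with hS₂def
      have hPTC' := hPTC κ R T A a G z₀ p S₂ hκ0 hκ1 hR (hCPC.trans hC'R) hRT hA ha hCls hBC htz1
        htz2 (by
          have e1 : (S₂.card : ℝ) ≤ S.card := by
            exact_mod_cast Finset.card_le_card ((Finset.filter_subset _ _).trans hS₁)
          refine e1.trans (hScard.trans (mul_le_mul_of_nonneg_right (by linarith) (by positivity))))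
        (by
          intro W hW
          obtain ⟨hW1, hW2⟩ := Finset.mem_filter.1 hW
          refine ⟨(hS W (hS₁ hW1)).1, (hS W (hS₁ hW1)).2.2.2.1, ?_⟩
          obtain ⟨q, hq, hInc, hbp⟩ := hTT₂p (tb R W) hW2
          obtain ⟨z, hz1, hz2⟩ := hTUB m R δ W q hR hδ.le hInc
          have hz2' : ‖z - co R q‖ ≤ ((m : ℝ) + 3) * R ^ (1 / 2 + δ) := hz2
          have hco : ‖co R q - z₀‖ ≤ ((m : ℝ) + 2) * R := hQQ q hq
          refine ⟨z, hz1, ?_, ?_⟩
          · calc ‖z - z₀‖ = ‖(z - co R q) + (co R q - z₀)‖ := by rw [sub_add_sub_cancel]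
              _ ≤ ‖z - co R q‖ + ‖co R q - z₀‖ := norm_add_le _ _
              _ ≤ R + ((m : ℝ) + 2) * R := add_le_add (hz2'.trans hhalf) hco
              _ = ((m : ℝ) + 3) * R := by ring
              _ ≤ (B + m + 10) * R := mul_le_mul_of_nonneg_right (by linarith) hR0.le
          · have hη : ‖ctr (sR R) W.1‖ ≤ 3 := (hS W (hS₁ hW1)).2.2.1
            have hbp' : ‖bp (ctr (sR R) W.1) (co R q) - p‖ ≤ T * sR R := hbp
            have e1 : bp (ctr (sR R) W.1) z - p =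
                bp (ctr (sR R) W.1) (z - co R q) + (bp (ctr (sR R) W.1) (co R q) - p) := by
              rw [(hbpadd (ctr (sR R) W.1) z (co R q)).2]
              abel
            have e2 : ‖bp (ctr (sR R) W.1) (z - co R q)‖ ≤ T * sR R := by
              refine ((hbpn (ctr (sR R) W.1) (z - co R q) hη).1).trans ?_
              refine le_trans ?_ hTsR
              calc C_D * ‖z - co R q‖ ≤ C_D * (((m : ℝ) + 3) * R ^ (1 / 2 + δ)) :=
                    mul_le_mul_of_nonneg_left hz2' (by linarith)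
                _ = R ^ (1 / 2 + δ) * (C_D * ((m : ℝ) + 3)) := by ring
                _ ≤ R ^ (1 / 2 + δ) * R ^ δ :=
                    mul_le_mul_of_nonneg_left hCDR (by positivity)
            have e3 : 0 ≤ T * sR R := (norm_nonneg _).trans e2
            calc ‖bp (ctr (sR R) W.1) z - p‖ ≤ T * sR R + T * sR R := by
                  rw [e1]
                  exact (norm_add_le _ _).trans (add_le_add e2 hbp')
              _ = 2 * (T * sR R) := by ring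
              _ ≤ (B + m + 10) * (T * sR R) := mul_le_mul_of_nonneg_right (by linarith) e3)
      have hS₂a : (S₂.card : ℝ) * a ^ 2 ≤ Λ₂ * (A ^ 2 * R ^ 2) := by
        refine hPTC'.trans (mul_le_mul_of_nonneg_right ?_ (by positivity))
        exact (hCle C_P _ hCPC (exps hy6 hδ hε₀).1).trans hΛΛ
      rw [hf, le_div_iff₀ hba]
      calc (TT₂.card : ℝ) * (b * a ^ 2) = b * TT₂.card * a ^ 2 := by ring
        _ ≤ S₂.card * a ^ 2 := mul_le_mul_of_nonneg_right hS₂ (by positivity)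
        _ ≤ Λ₂ * (A ^ 2 * R ^ 2) := hS₂a)
    rw [← ht] at hmain
    have hlast : C_B * R ^ (lb m * (δ + ε₀)) * (((QQ.card : ℝ) / Real.sqrt R) ^ 7 * f) ≤
        Λ₂ * (((QQ.card : ℝ) / Real.sqrt R) ^ 7 * f) := by
      refine mul_le_mul_of_nonneg_right ?_ (by positivity)
      rw [hΛ₂]
      exact mul_le_mul_of_nonneg_right hCBC (by positivity)
    exact absurd (hmain.trans hlast) (not_le.2 hK2)

end Pool.Agent.H82.KT
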